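import Pool.Agent.H17.P3.Defs

set_option autoImplicit false
set_option linter.unusedSectionVars false

/-!
The matrix form of the rooted tree statement (MP_a46c6f_co, note 7046): sets without an induced path
on four vertices, Seinsche's theorem, constant and full vertices.
-/

namespace Pool.Agent.H58.P3

open Pool.Agent.H17.P3

variable {X : Type} [DecidableEq X]

lemma z01 (c : ZMod 2) : c = 0 ∨ c = 1 := by
  revert c; decide

lemma zne (a c : ZMod 2) (h : a ≠ c) : a = c + 1 := by
  revert a c; decide

lemma zne1 (a c : ZMod 2) (h : a ≠ c + 1) : a = c := by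
  revert a c; decide

lemma n0 {a : ZMod 2} (h : a ≠ 0) : a = 1 := by
  revert a; decide

lemma n1 {a : ZMod 2} (h : a ≠ 1) : a = 0 := by
  revert a; decide

lemma o0 {a : ZMod 2} (h : a = 1) (h' : a = 0) : False := by
  rw [h] at h'; exact absurd h' (by decide)

/-- no induced path inside `S` -/
def NoP4In (M : X → X → ZMod 2) (S : Finset X) : Prop :=
  ∀ a ∈ S, ∀ b ∈ S, ∀ c ∈ S, ∀ d ∈ S, ¬ IsP4 M a b c d

/-- closed pairs of `D` have a midpoint in `D` -/
def PairsIn (M : X → X → ZMod 2) (D : Finset X) : Prop :=
  ∀ u ∈ D, ∀ v ∈ D, M u u = M v v → M u v ≠ M u u →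
    ∃ g ∈ D, M g g ≠ M u u ∧ M g u = M g g ∧ M g v = M g g ∧ ∀ x ∈ D, M u x = M v x → M g x = M u x

lemma NoP4In.mono {M : X → X → ZMod 2} {S T : Finset X} (h : NoP4In M T) (hST : S ⊆ T) :
    NoP4In M S := fun a ha b hb c hc d hd => h a (hST ha) b (hST hb) c (hST hc) d (hST hd)

/-- no path on four vertices in the graph of the pairs with value `c + 1` -/
lemma NoP4In.gen {M : X → X → ZMod 2} {S : Finset X} (hP : NoP4In M S)
    (hs : ∀ x y, M x y = M y x) (c : ZMod 2) {q p v r : X}
    (m1 : q ∈ S) (m2 : p ∈ S) (m3 : v ∈ S) (m4 : r ∈ S)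
    (h1 : M q p = c + 1) (h2 : M p v = c + 1) (h3 : M v r = c + 1)
    (h4 : M q v = c) (h5 : M q r = c) (h6 : M p r = c) : False := by
  rcases z01 c with rfl | rfl
  · rw [zero_add] at h1 h2 h3
    exact hP q m1 p m2 v m3 r m4 ⟨h1, h2, h3, h4, h5, h6⟩
  · have e : (1 : ZMod 2) + 1 = 0 := by decide
    rw [e] at h1 h2 h3
    exact hP p m2 r m4 q m1 v m3 ⟨h6, by rw [hs]; exact h5, h4, by rw [hs]; exact h1, h2,
      by rw [hs]; exact h3⟩

/-- **Seinsche** -/
theorem seinsche {M : X → X → ZMod 2} (hs : ∀ x y, M x y = M y x) (S : Finset X)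
    (hP : NoP4In M S) (h2 : 2 ≤ S.card) :
    ∃ (A B : Finset X) (c : ZMod 2), A.Nonempty ∧ B.Nonempty ∧ A ∪ B = S ∧ Disjoint A B ∧
      ∀ a ∈ A, ∀ b ∈ B, M a b = c := by
  induction S using Finset.induction_on with
  | empty => simp at h2
  | @insert v S' hv ih =>
    rw [Finset.card_insert_of_notMem hv] at h2
    have hmv : v ∈ insert v S' := Finset.mem_insert_self _ _
    have hms : ∀ {x}, x ∈ S' → x ∈ insert v S' := fun h => Finset.mem_insert_of_mem h
    by_cases hc : 2 ≤ S'.card
    · obtain ⟨A, B, c, hA, hB, hAB, hdis, hcr⟩ := ih (hP.mono (Finset.subset_insert _ _)) hc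
      -- case (i)
      have case1 : ∀ K : Finset X, K.Nonempty → K ⊆ S' → (∀ a ∈ K, ∀ b ∈ S' \ K, M a b = c) →
          (∀ a ∈ K, M v a = c) → ∃ (A B : Finset X) (c : ZMod 2), A.Nonempty ∧ B.Nonempty ∧
            A ∪ B = insert v S' ∧ Disjoint A B ∧ ∀ a ∈ A, ∀ b ∈ B, M a b = c := by
        intro K hK hKS hKc hvK
        have hvK' : v ∉ K := fun h => hv (hKS h)
        refine ⟨K, insert v (S' \ K), c, hK, ⟨v, Finset.mem_insert_self _ _⟩, ?_, ?_, ?_⟩
        · ext x
          simp only [Finset.mem_union, Finset.mem_insert, Finset.mem_sdiff]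
          constructor
          · rintro (h | h | h)
            · exact Or.inr (hKS h)
            · exact Or.inl h
            · exact Or.inr h.1
          · rintro (h | h)
            · exact Or.inr (Or.inl h)
            · by_cases hx : x ∈ K
              · exact Or.inl hx
              · exact Or.inr (Or.inr ⟨h, hx⟩)
        · rw [Finset.disjoint_left]
          intro x hx hx'
          rw [Finset.mem_insert, Finset.mem_sdiff] at hx'
          rcases hx' with h | h
          · exact hvK' (h ▸ hx)
          · exact h.2 hx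
        · intro a ha b hb
          rw [Finset.mem_insert] at hb
          rcases hb with h | h
          · rw [h, hs]; exact hvK a ha
          · exact hKc a ha b h
      by_cases hall : ∀ w ∈ S', M v w = c + 1
      · refine ⟨{v}, S', c + 1, Finset.singleton_nonempty v, ?_, ?_, ?_, ?_⟩
        · exact Finset.card_pos.1 (by omega)
        · rw [Finset.insert_eq]
        · rw [Finset.disjoint_singleton_left]; exact hv
        · intro a ha b hb
          rw [Finset.mem_singleton] at ha
          rw [ha]
          exact hall b hb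
      · push Not at hall
        obtain ⟨w, hw, hwc⟩ := hall
        have hwc' : M v w = c := zne1 _ _ hwc
        -- the main step, for `w` in one of the two parts
        have main : ∀ A B : Finset X, B.Nonempty → A ∪ B = S' → Disjoint A B →
            (∀ a ∈ A, ∀ b ∈ B, M a b = c) → w ∈ A →
            ∃ (A B : Finset X) (c : ZMod 2), A.Nonempty ∧ B.Nonempty ∧
            A ∪ B = insert v S' ∧ Disjoint A B ∧ ∀ a ∈ A, ∀ b ∈ B, M a b = c := by
          intro A B hB hAB hdis hcr hwA
          have hAS : A ⊆ S' := hAB ▸ Finset.subset_union_left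
          have hBS : B ⊆ S' := hAB ▸ Finset.subset_union_right
          have hsep : ∀ a ∈ A, ∀ b ∈ S' \ A, M a b = c := by
            intro a ha b hb
            rw [Finset.mem_sdiff, ← hAB, Finset.mem_union] at hb
            exact hcr a ha b (hb.1.resolve_left hb.2)
          obtain ⟨K, hK, hKmin⟩ := Finset.exists_min_image
            (A.powerset.filter fun K => w ∈ K ∧ ∀ a ∈ K, ∀ b ∈ S' \ K, M a b = c)
            (fun K => K.card) ⟨A, by
              rw [Finset.mem_filter, Finset.mem_powerset]
              exact ⟨Finset.Subset.refl _, hwA, hsep⟩⟩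
          rw [Finset.mem_filter, Finset.mem_powerset] at hK
          obtain ⟨hKA, hwK, hKc⟩ := hK
          have hKS : K ⊆ S' := hKA.trans hAS
          by_cases hK1 : ∀ a ∈ K, M v a = c
          · exact case1 K ⟨w, hwK⟩ hKS hKc hK1
          · by_cases hB1 : ∀ b ∈ B, M v b = c
            · refine case1 B hB hBS ?_ hB1
              intro b hb a ha
              rw [Finset.mem_sdiff, ← hAB, Finset.mem_union] at ha
              rw [hs]
              exact hcr a (ha.1.resolve_right ha.2) b hb
            · exfalso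
              push Not at hK1 hB1
              obtain ⟨p0, hp0, hp0c⟩ := hK1
              obtain ⟨r, hr, hrc⟩ := hB1
              -- an edge inside `K`
              have hedge : ∃ p ∈ K, ∃ q ∈ K, M v p ≠ c ∧ M v q = c ∧ M q p ≠ c := by
                by_contra hno
                push Not at hno
                have hmem : K.filter (fun a => M v a = c) ∈
                    A.powerset.filter fun K => w ∈ K ∧ ∀ a ∈ K, ∀ b ∈ S' \ K, M a b = c := by
                  rw [Finset.mem_filter, Finset.mem_powerset]
                  refine ⟨(Finset.filter_subset _ _).trans hKA, ?_, ?_⟩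
                  · rw [Finset.mem_filter]; exact ⟨hwK, hwc'⟩
                  · intro a ha b hb
                    rw [Finset.mem_filter] at ha
                    rw [Finset.mem_sdiff, Finset.mem_filter] at hb
                    by_cases hbK : b ∈ K
                    · exact hno b hbK a ha.1 (fun h => hb.2 ⟨hbK, h⟩) ha.2
                    · exact hKc a ha.1 b (Finset.mem_sdiff.2 ⟨hb.1, hbK⟩)
                have h1 := hKmin _ hmem
                have h3 : (K.filter (fun a => M v a = c)).card < K.card := by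
                  apply Finset.card_lt_card
                  rw [Finset.ssubset_iff_subset_ne]
                  refine ⟨Finset.filter_subset _ _, ?_⟩
                  intro h
                  rw [← h, Finset.mem_filter] at hp0
                  exact hp0c hp0.2
                omega
              obtain ⟨p, hp, q, hq, hp1, hq1, hqp⟩ := hedge
              have hrK : r ∉ K := fun h => Finset.disjoint_left.1 hdis (hKA h) hr
              have hrS : r ∈ S' \ K := Finset.mem_sdiff.2 ⟨hBS hr, hrK⟩
              refine hP.gen hs c (q := q) (p := p) (v := v) (r := r) (hms (hKS hq)) (hms (hKS hp))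
                hmv (hms (hBS hr)) (zne _ _ hqp) ?_ (zne _ _ hrc) ?_ (hKc q hq r hrS)
                (hKc p hp r hrS)
              · rw [hs]; exact zne _ _ hp1
              · rw [hs]; exact hq1
        rw [← hAB, Finset.mem_union] at hw
        rcases hw with h | h
        · exact main A B hB hAB hdis hcr h
        · refine main B A hA ?_ hdis.symm ?_ h
          · rw [Finset.union_comm]; exact hAB
          · intro b hb a ha
            rw [hs]; exact hcr a ha b hb
    · have hc1 : S'.card = 1 := by omega
      obtain ⟨w, rfl⟩ := Finset.card_eq_one.1 hc1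
      refine ⟨{v}, {w}, M v w, Finset.singleton_nonempty v, Finset.singleton_nonempty w, ?_, ?_, ?_⟩
      · rfl
      · rw [Finset.disjoint_singleton_left]; exact hv
      · intro a ha b hb
        rw [Finset.mem_singleton] at ha hb
        rw [ha, hb]

/-! ### complement -/

/-- the complement -/
def co (M : X → X → ZMod 2) : X → X → ZMod 2 := fun x y => M x y + 1

lemma add1_inj (a b : ZMod 2) : a + 1 = b + 1 ↔ a = b := by
  revert a b; decide

lemma PairsIn.co {M : X → X → ZMod 2} {D : Finset X} (h : PairsIn M D) : PairsIn (co M) D := by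
  intro u hu v hv h1 h2
  simp only [P3.co, add1_inj, ne_eq] at h1 h2 ⊢
  exact h u hu v hv h1 h2

lemma isP4_co {M : X → X → ZMod 2} {a b c d : X} (hs : ∀ x y, M x y = M y x)
    (h : IsP4 (co M) a b c d) : IsP4 M b d a c := by
  obtain ⟨h1, h2, h3, h4, h5, h6⟩ := h
  simp only [P3.co] at h1 h2 h3 h4 h5 h6
  have e1 : ∀ x : ZMod 2, x + 1 = 1 → x = 0 := by decide
  have e2 : ∀ x : ZMod 2, x + 1 = 0 → x = 1 := by decide
  exact ⟨e2 _ h6, by rw [hs]; exact e2 _ h5, e2 _ h4, by rw [hs]; exact e1 _ h1, e1 _ h2,
    by rw [hs]; exact e1 _ h3⟩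

lemma NoP4In.co {M : X → X → ZMod 2} {D : Finset X} (hs : ∀ x y, M x y = M y x)
    (h : NoP4In M D) : NoP4In (co M) D := by
  intro a ha b hb c hc d hd hp
  exact h b hb d hd a ha c hc (isP4_co hs hp)

/-! ### separated sets -/

/-- `K` is a nonempty subset of `D` with no edge to the rest of `D` -/
def Sepd (M : X → X → ZMod 2) (D K : Finset X) : Prop :=
  K ⊆ D ∧ K.Nonempty ∧ ∀ a ∈ K, ∀ b ∈ D, b ∉ K → M a b = 0

/-- minimal separated sets -/
def MinSep (M : X → X → ZMod 2) (D K : Finset X) : Prop :=
  Sepd M D K ∧ ∀ K' ⊆ K, Sepd M D K' → K' = K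

lemma exists_minSep {M : X → X → ZMod 2} {D K : Finset X} (h : Sepd M D K) :
    ∃ K' ⊆ K, MinSep M D K' := by
  classical
  obtain ⟨K', hK', hmin⟩ := Finset.exists_min_image (K.powerset.filter fun K' => Sepd M D K')
    (fun K' => K'.card) ⟨K, by
      rw [Finset.mem_filter, Finset.mem_powerset]; exact ⟨Finset.Subset.refl _, h⟩⟩
  rw [Finset.mem_filter, Finset.mem_powerset] at hK'
  refine ⟨K', hK'.1, hK'.2, ?_⟩
  intro K'' hsub hsep
  have := hmin K'' (by
    rw [Finset.mem_filter, Finset.mem_powerset]; exact ⟨hsub.trans hK'.1, hsep⟩)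
  exact Finset.eq_of_subset_of_card_le hsub this

/-- the component of a vertex -/
lemma exists_comp {M : X → X → ZMod 2} (hs : ∀ x y, M x y = M y x) {D : Finset X} {x : X}
    (hx : x ∈ D) : ∃ K, x ∈ K ∧ MinSep M D K := by
  classical
  obtain ⟨K, hK, hmin⟩ := Finset.exists_min_image
    (D.powerset.filter fun K' => x ∈ K' ∧ Sepd M D K')
    (fun K' => K'.card) ⟨D, by
      rw [Finset.mem_filter, Finset.mem_powerset]
      exact ⟨Finset.Subset.refl _, hx, Finset.Subset.refl _, ⟨x, hx⟩,
        fun a _ b hb hb' => absurd hb hb'⟩⟩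
  rw [Finset.mem_filter, Finset.mem_powerset] at hK
  obtain ⟨hKD, hxK, hsep⟩ := hK
  refine ⟨K, hxK, hsep, ?_⟩
  intro K' hsub hsep'
  by_cases hxK' : x ∈ K'
  · have := hmin K' (by
      rw [Finset.mem_filter, Finset.mem_powerset]
      exact ⟨hsub.trans hKD, hxK', hsep'⟩)
    exact Finset.eq_of_subset_of_card_le hsub this
  · exfalso
    have hmem : K \ K' ∈ D.powerset.filter fun K' => x ∈ K' ∧ Sepd M D K' := by
      rw [Finset.mem_filter, Finset.mem_powerset]
      refine ⟨Finset.sdiff_subset.trans hKD, Finset.mem_sdiff.2 ⟨hxK, hxK'⟩,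
        Finset.sdiff_subset.trans hKD, ⟨x, Finset.mem_sdiff.2 ⟨hxK, hxK'⟩⟩, ?_⟩
      intro a ha b hb hb'
      rw [Finset.mem_sdiff] at ha hb'
      by_cases hbK : b ∈ K
      · have hbK' : b ∈ K' := by
          by_contra h
          exact hb' ⟨hbK, h⟩
        rw [hs]
        exact hsep'.2.2 b hbK' a (hKD ha.1) ha.2
      · exact hsep.2.2 a ha.1 b hb hbK
    have h1 := hmin _ hmem
    obtain ⟨y, hy⟩ := hsep'.2.1
    have h2 : (K \ K').card < K.card := by
      apply Finset.card_lt_card
      rw [Finset.ssubset_iff_subset_ne]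
      refine ⟨Finset.sdiff_subset, ?_⟩
      intro h
      have := hsub hy
      rw [← h, Finset.mem_sdiff] at this
      exact this.2 hy
    omega

lemma MinSep.mem {M : X → X → ZMod 2} {D K : Finset X} (h : MinSep M D K) {a b : X}
    (ha : a ∈ K) (hb : b ∈ D) (hab : M a b = 1) : b ∈ K := by
  by_contra hbK
  exact o0 hab (h.1.2.2 a ha b hb hbK)

/-- components inherit the pair condition -/
lemma MinSep.pairsIn {M : X → X → ZMod 2} (hs : ∀ x y, M x y = M y x) {D K : Finset X}
    (h : MinSep M D K) (hp : PairsIn M D) (h4 : NoP4In M D) : PairsIn M K := by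
  intro u hu v hv h1 h2
  obtain ⟨g, hg, g1, g2, g3, g4⟩ := hp u (h.1.1 hu) v (h.1.1 hv) h1 h2
  refine ⟨g, ?_, g1, g2, g3, fun x hx => g4 x (h.1.1 hx)⟩
  rcases z01 (M u u) with e | e
  · -- loops 0
    rw [e] at g1
    have := n0 g1
    rw [this] at g2
    exact h.mem hu hg (by rw [hs]; exact g2)
  · -- loops 1: a common neighbour
    rw [e] at h2
    have huv : M u v = 0 := n1 h2
    have hne : u ≠ v := by
      rintro rfl
      exact o0 e huv
    have hc : 2 ≤ K.card := by
      have : ({u, v} : Finset X) ⊆ K := by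
        intro x hx
        rw [Finset.mem_insert, Finset.mem_singleton] at hx
        rcases hx with rfl | rfl
        · exact hu
        · exact hv
      have h3 := Finset.card_le_card this
      rw [Finset.card_pair hne] at h3
      exact h3
    obtain ⟨A, B, c, hA, hB, hAB, hdis, hcr⟩ := seinsche hs K (h4.mono h.1.1) hc
    have hAK : A ⊆ K := hAB ▸ Finset.subset_union_left
    have hBK : B ⊆ K := hAB ▸ Finset.subset_union_right
    have hc1 : c = 1 := by
      rcases z01 c with rfl | rfl
      · exfalso
        have hsA : Sepd M D A := by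
          refine ⟨hAK.trans h.1.1, hA, ?_⟩
          intro a ha b hb hb'
          by_cases hbK : b ∈ K
          · rw [← hAB, Finset.mem_union] at hbK
            exact hcr a ha b (hbK.resolve_left hb')
          · exact h.1.2.2 a (hAK ha) b hb hbK
        have := h.2 A hAK hsA
        obtain ⟨b, hb⟩ := hB
        have hbA : b ∈ A := by rw [this]; exact hBK hb
        exact Finset.disjoint_left.1 hdis hbA hb
      · rfl
    subst hc1
    have hcommon : ∃ w ∈ K, M u w = 1 ∧ M v w = 1 := by
      have hu' := hu
      have hv' := hv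
      rw [← hAB, Finset.mem_union] at hu' hv'
      rcases hu' with hu' | hu' <;> rcases hv' with hv' | hv'
      · obtain ⟨w, hw⟩ := hB
        exact ⟨w, hBK hw, hcr u hu' w hw, hcr v hv' w hw⟩
      · exact absurd (hcr u hu' v hv') (fun h => o0 h huv)
      · exact absurd (hcr v hv' u hu') (fun h => o0 h (by rw [hs]; exact huv))
      · obtain ⟨w, hw⟩ := hA
        exact ⟨w, hAK hw, by rw [hs]; exact hcr w hw u hu', by rw [hs]; exact hcr w hw v hv'⟩
    obtain ⟨w, hw, w1, w2⟩ := hcommon
    have h3 := g4 w (h.1.1 hw) (by rw [w1, w2])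
    rw [w1] at h3
    exact h.mem hw hg (by rw [hs]; exact h3)

/-- **Claim A**: a constant vertex -/
theorem claimA (n : ℕ) : ∀ (M : X → X → ZMod 2) (_ : ∀ x y, M x y = M y x) (D : Finset X),
    D.card ≤ n → D.Nonempty → PairsIn M D → NoP4In M D → ∃ x ∈ D, ∀ y ∈ D, M x y = M x x := by
  induction n with
  | zero =>
    intro M _ D hn hD
    have := hD.card_pos
    omega
  | succ n ih =>
    -- the disconnected case
    have disc : ∀ (M : X → X → ZMod 2) (_ : ∀ x y, M x y = M y x) (D : Finset X),
        D.card ≤ n + 1 → PairsIn M D → NoP4In M D → ∀ A B : Finset X, A.Nonempty → B.Nonempty →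
        A ∪ B = D → Disjoint A B → (∀ a ∈ A, ∀ b ∈ B, M a b = 0) →
        ∃ x ∈ D, ∀ y ∈ D, M x y = M x x := by
      intro M hs D hn hp h4 A B hA hB hAB hdis hcr
      have hAD : A ⊆ D := hAB ▸ Finset.subset_union_left
      have hBD : B ⊆ D := hAB ▸ Finset.subset_union_right
      have hsA : Sepd M D A := by
        refine ⟨hAD, hA, ?_⟩
        intro a ha b hb hb'
        rw [← hAB, Finset.mem_union] at hb
        exact hcr a ha b (hb.resolve_left hb')
      have hsB : Sepd M D B := by
        refine ⟨hBD, hB, ?_⟩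
        intro b hb a ha ha'
        rw [← hAB, Finset.mem_union] at ha
        rw [hs]
        exact hcr a (ha.resolve_right ha') b hb
      obtain ⟨K₁, hK1, hm1⟩ := exists_minSep hsA
      obtain ⟨K₂, hK2, hm2⟩ := exists_minSep hsB
      have hcard : A.card + B.card = D.card := by
        rw [← hAB, Finset.card_union_of_disjoint hdis]
      have hA1 := hA.card_pos
      have hB1 := hB.card_pos
      obtain ⟨x₁, hx1, hx1c⟩ := ih M hs K₁ (by have := Finset.card_le_card hK1; omega) hm1.1.2.1
        (hm1.pairsIn hs hp h4) (h4.mono hm1.1.1)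
      obtain ⟨x₂, hx2, hx2c⟩ := ih M hs K₂ (by have := Finset.card_le_card hK2; omega) hm2.1.2.1
        (hm2.pairsIn hs hp h4) (h4.mono hm2.1.1)
      have iso : ∀ K x, MinSep M D K → x ∈ K → (∀ y ∈ K, M x y = M x x) → M x x = 0 →
          ∃ x ∈ D, ∀ y ∈ D, M x y = M x x := by
        intro K x hm hx hc h0
        refine ⟨x, hm.1.1 hx, ?_⟩
        intro y hy
        by_cases hyK : y ∈ K
        · exact hc y hyK
        · rw [hm.1.2.2 x hx y hy hyK, h0]
      rcases z01 (M x₁ x₁) with e1 | e1
      · exact iso K₁ x₁ hm1 hx1 hx1c e1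
      · rcases z01 (M x₂ x₂) with e2 | e2
        · exact iso K₂ x₂ hm2 hx2 hx2c e2
        · have h12 : M x₁ x₂ = 0 := hcr x₁ (hK1 hx1) x₂ (hK2 hx2)
          obtain ⟨g, hg, g1, g2, g3, g4⟩ := hp x₁ (hm1.1.1 hx1) x₂ (hm2.1.1 hx2)
            (by rw [e1, e2]) (by rw [h12, e1]; decide)
          rw [e1] at g1
          have g0 := n1 g1
          rw [g0] at g2 g3
          have hg1 : g ∉ K₁ := by
            intro h
            have := hx1c g h
            rw [e1, hs] at this
            exact o0 this g2
          have hg2 : g ∉ K₂ := by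
            intro h
            have := hx2c g h
            rw [e2, hs] at this
            exact o0 this g3
          refine ⟨g, hg, ?_⟩
          intro y hy
          rw [g0]
          by_cases hy1 : y ∈ K₁
          · rw [hs]; exact hm1.1.2.2 y hy1 g hg hg1
          · by_cases hy2 : y ∈ K₂
            · rw [hs]; exact hm2.1.2.2 y hy2 g hg hg2
            · have a1 := hm1.1.2.2 x₁ hx1 y hy hy1
              have a2 := hm2.1.2.2 x₂ hx2 y hy hy2
              rw [g4 y hy (by rw [a1, a2]), a1]
    intro M hs D hn hD hp h4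
    by_cases h2 : 2 ≤ D.card
    · obtain ⟨A, B, c, hA, hB, hAB, hdis, hcr⟩ := seinsche hs D h4 h2
      rcases z01 c with rfl | rfl
      · exact disc M hs D hn hp h4 A B hA hB hAB hdis hcr
      · obtain ⟨x, hx, hxc⟩ := disc (co M) (fun x y => by simp only [co, hs x y]) D hn hp.co
          (h4.co hs) A B hA hB hAB hdis (by
            intro a ha b hb
            simp only [co, hcr a ha b hb]
            decide)
        refine ⟨x, hx, ?_⟩
        intro y hy
        have := hxc y hy
        simp only [co, add1_inj] at this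
        exact this
    · have hc1 : D.card = 1 := by
        have := hD.card_pos
        omega
      obtain ⟨x, rfl⟩ := Finset.card_eq_one.1 hc1
      refine ⟨x, Finset.mem_singleton_self x, ?_⟩
      intro y hy
      rw [Finset.mem_singleton] at hy
      rw [hy]

/-- the component of a vertex with a neighbour has a full vertex -/
theorem comp_full {M : X → X → ZMod 2} (hs : ∀ x y, M x y = M y x) {D : Finset X}
    (hp : PairsIn M D) (h4 : NoP4In M D) {x y : X} (hx : x ∈ D) (hy : y ∈ D) (hxy : M x y = 1) :
    ∃ K, x ∈ K ∧ y ∈ K ∧ MinSep M D K ∧ ∃ f ∈ K, ∀ w ∈ K, M f w = 1 := by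
  obtain ⟨K, hxK, hm⟩ := exists_comp hs hx
  have hyK := hm.mem hxK hy hxy
  refine ⟨K, hxK, hyK, hm, ?_⟩
  obtain ⟨f, hf, hfc⟩ := claimA K.card M hs K le_rfl ⟨x, hxK⟩ (hm.pairsIn hs hp h4)
    (h4.mono hm.1.1)
  rcases z01 (M f f) with e | e
  · exfalso
    have hsf : Sepd M D {f} := by
      refine ⟨Finset.singleton_subset_iff.2 (hm.1.1 hf), Finset.singleton_nonempty f, ?_⟩
      intro a ha b hb hb'
      rw [Finset.mem_singleton] at ha
      rw [ha]
      by_cases hbK : b ∈ K
      · rw [hfc b hbK, e]
      · exact hm.1.2.2 f hf b hb hbK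
    have := hm.2 {f} (Finset.singleton_subset_iff.2 hf) hsf
    rw [← this, Finset.mem_singleton] at hxK hyK
    rw [hxK, hyK] at hxy
    exact o0 hxy e
  · refine ⟨f, hf, ?_⟩
    intro w hw
    rw [hfc w hw, e]

end Pool.Agent.H58.P3
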