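import Pool.Agent.H58.P3.Base

set_option autoImplicit false
set_option linter.unusedSectionVars false

/-!
The matrix form of the rooted tree statement (MP_a46c6f_co, note 7046): minimal cylinders.
-/

namespace Pool.Agent.H58.P3

open Pool.Agent.H17.P3

section
variable {X : Type} [DecidableEq X]

lemma PairsIn.filter {M : X → X → ZMod 2} {C : Finset X} (h : PairsIn M C) (p : X → Prop)
    [DecidablePred p]
    (hp : ∀ u v g, p u → p v → (∀ x ∈ C, M u x = M v x → M g x = M u x) → p g) :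
    PairsIn M (C.filter p) := by
  intro u hu v hv h1 h2
  rw [Finset.mem_filter] at hu hv
  obtain ⟨g, hg, g1, g2, g3, g4⟩ := h u hu.1 v hv.1 h1 h2
  refine ⟨g, Finset.mem_filter.2 ⟨hg, hp u v g hu.2 hv.2 g4⟩, g1, g2, g3, ?_⟩
  intro x hx
  exact g4 x (Finset.mem_filter.1 hx).1

/-- the lemma on a minimal cylinder without a full vertex -/
theorem core {M : X → X → ZMod 2} (hs : ∀ x y, M x y = M y x) {C : Finset X}
    (pr : PairsIn M C)
    (p4 : ∀ w ∈ C, (∃ y ∈ C, M w y = 1) → ∀ ε, NoP4In M (C.filter fun y => M w y = ε))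
    (ex : ¬ NoP4In M C) :
    ∃ a ∈ C, ∃ b ∈ C, ∃ c ∈ C, ∃ d ∈ C, IsP4 M a b c d ∧ M a a = 0 ∧ M b b = 1 ∧ M c c = 1 ∧
      M d d = 0 ∧ ∀ g ∈ C, ¬ Bad M a b c d g := by
  classical
  have prF : ∀ w ∈ C, ∀ ε, PairsIn M (C.filter fun y => M w y = ε) := by
    intro w hw ε
    apply pr.filter
    intro u v g hu hv hg
    rw [hs] at hu hv ⊢
    rw [hg w hw (by rw [hu, hv]), hu]
  -- (1)
  have plus : ∀ w ∈ C, M w w = 0 → ∀ y ∈ C, M w y = 1 →
      ∃ x ∈ C, M x x = 1 ∧ M x w = 1 ∧ ∀ z ∈ C, M w z = 1 → M x z = 1 := by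
    intro w hw h0 y hy hwy
    obtain ⟨x, hx, hxc⟩ := claimA _ M hs (C.filter fun y => M w y = 1) le_rfl
      ⟨y, Finset.mem_filter.2 ⟨hy, hwy⟩⟩ (prF w hw 1) (p4 w hw ⟨y, hy, hwy⟩ 1)
    rw [Finset.mem_filter] at hx
    rcases z01 (M x x) with e | e
    · exfalso
      obtain ⟨g, hg, g1, g2, g3, g4⟩ := pr w hw x hx.1 (by rw [h0, e]) (by rw [hx.2, h0]; decide)
      rw [h0] at g1
      have g1' := n0 g1
      rw [g1'] at g2 g3
      have := hxc g (Finset.mem_filter.2 ⟨hg, by rw [hs]; exact g2⟩)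
      rw [e, hs] at this
      exact o0 g3 this
    · refine ⟨x, hx.1, e, by rw [hs]; exact hx.2, ?_⟩
      intro z hz hwz
      rw [hxc z (Finset.mem_filter.2 ⟨hz, hwz⟩), e]
  -- (2)
  have iso : ∀ b ∈ C, ∀ c ∈ C, M c c = 1 → M b c = 1 → (∃ y ∈ C, M b y = 1 ∧ M c y = 0) →
      ∃ a ∈ C, M b a = 1 ∧ M c a = 0 ∧ ∀ y ∈ C, M b y = 1 → M c y = 0 → M a y = 0 := by
    intro b hb c hc hcc hbc ⟨y0, hy0, hy1, hy2⟩
    have hpD : PairsIn M (C.filter fun y => M b y = 1 ∧ M c y = 0) := by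
      apply pr.filter
      intro u v g hu hv hg
      rw [hs b, hs c] at hu hv ⊢
      refine ⟨?_, ?_⟩
      · rw [hg b hb (by rw [hu.1, hv.1]), hu.1]
      · rw [hg c hc (by rw [hu.2, hv.2]), hu.2]
    have h4D : NoP4In M (C.filter fun y => M b y = 1 ∧ M c y = 0) := by
      refine (p4 b hb ⟨c, hc, hbc⟩ 1).mono ?_
      intro y hy
      rw [Finset.mem_filter] at hy ⊢
      exact ⟨hy.1, hy.2.1⟩
    obtain ⟨a, ha, hac⟩ := claimA _ M hs (C.filter fun y => M b y = 1 ∧ M c y = 0) le_rfl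
      ⟨y0, Finset.mem_filter.2 ⟨hy0, hy1, hy2⟩⟩ hpD h4D
    rw [Finset.mem_filter] at ha
    rcases z01 (M a a) with e | e
    · refine ⟨a, ha.1, ha.2.1, ha.2.2, ?_⟩
      intro y hy h1 h2
      rw [hac y (Finset.mem_filter.2 ⟨hy, h1, h2⟩), e]
    · exfalso
      have hac0 : M a c = 0 := by rw [hs]; exact ha.2.2
      obtain ⟨g, hg, g1, g2, g3, g4⟩ := pr a ha.1 c hc (by rw [e, hcc])
        (by rw [hac0, e]; decide)
      rw [e] at g1
      have g1' := n1 g1
      rw [g1'] at g2 g3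
      have hab : M a b = 1 := by rw [hs]; exact ha.2.1
      have hcb : M c b = 1 := by rw [hs]; exact hbc
      have hgb := g4 b hb (by rw [hab, hcb])
      rw [hab] at hgb
      have := hac g (Finset.mem_filter.2 ⟨hg, by rw [hs]; exact hgb, by rw [hs]; exact g3⟩)
      rw [e, hs] at this
      exact o0 this g2
  -- a vertex of maximal degree
  have ex' : ∃ a ∈ C, ∃ b ∈ C, ∃ c ∈ C, ∃ d ∈ C, IsP4 M a b c d := by
    by_contra hno
    apply ex
    intro a ha b hb c hc d hd h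
    exact hno ⟨a, ha, b, hb, c, hc, d, hd, h⟩
  obtain ⟨a', ha', b', hb', c', hc', d', hd', hP⟩ := ex'
  obtain ⟨b, hb, hbmax⟩ := Finset.exists_max_image C
    (fun x => (C.filter fun y => M x y = 1).card) ⟨a', ha'⟩
  have hmax : ∀ x ∈ C, (∀ z ∈ C, M b z = 1 → M x z = 1) → ∀ z ∈ C, M x z = 1 → M b z = 1 := by
    intro x hx hsub z hz hxz
    by_contra hbz
    have hlt : (C.filter fun y => M b y = 1).card < (C.filter fun y => M x y = 1).card := by
      apply Finset.card_lt_card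
      rw [Finset.ssubset_iff_subset_ne]
      refine ⟨?_, ?_⟩
      · intro y hy
        rw [Finset.mem_filter] at hy ⊢
        exact ⟨hy.1, hsub y hy.1 hy.2⟩
      · intro h
        have : z ∈ C.filter fun y => M x y = 1 := Finset.mem_filter.2 ⟨hz, hxz⟩
        rw [← h, Finset.mem_filter] at this
        exact hbz this.2
    have := hbmax x hx
    omega
  have hbnb : ∃ y ∈ C, M b y = 1 := by
    by_contra hno
    push Not at hno
    have h1 : (C.filter fun y => M b y = 1).card = 0 := by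
      rw [Finset.card_eq_zero, Finset.filter_eq_empty_iff]
      exact fun {y} hy => hno y hy
    have h2 := hbmax a' ha'
    rw [h1] at h2
    have h3 : b' ∈ C.filter fun y => M a' y = 1 := Finset.mem_filter.2 ⟨hb', hP.ab⟩
    have h4 : 0 < (C.filter fun y => M a' y = 1).card := Finset.card_pos.2 ⟨b', h3⟩
    omega
  have hbb : M b b = 1 := by
    by_contra h
    have h0 := n1 h
    obtain ⟨y, hy, hby⟩ := hbnb
    obtain ⟨x, hx, x1, x2, x3⟩ := plus b hb h0 y hy hby
    exact h (hmax x hx x3 b hb x2)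
  -- an edge leaving `N(b)`
  have hcross : ∃ p ∈ C, ∃ q ∈ C, M b p = 1 ∧ M b q = 0 ∧ M p q = 1 := by
    have step : ∀ p ∈ C, ∀ q ∈ C, M p q = 1 → M b p ≠ M b q →
        ∃ p ∈ C, ∃ q ∈ C, M b p = 1 ∧ M b q = 0 ∧ M p q = 1 := by
      intro p hp q hq hpq hne
      rcases z01 (M b p) with e | e
      · rw [e] at hne
        exact ⟨q, hq, p, hp, n0 (Ne.symm hne), e, by rw [hs]; exact hpq⟩
      · rw [e] at hne
        exact ⟨p, hp, q, hq, e, n1 (Ne.symm hne), hpq⟩
    by_cases h1 : M b a' = M b b'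
    · by_cases h2 : M b b' = M b c'
      · by_cases h3 : M b c' = M b d'
        · exfalso
          refine p4 b hb hbnb (M b a') a' ?_ b' ?_ c' ?_ d' ?_ hP
          · exact Finset.mem_filter.2 ⟨ha', rfl⟩
          · exact Finset.mem_filter.2 ⟨hb', h1.symm⟩
          · exact Finset.mem_filter.2 ⟨hc', by rw [← h2, h1]⟩
          · exact Finset.mem_filter.2 ⟨hd', by rw [← h3, ← h2, h1]⟩
        · exact step c' hc' d' hd' hP.cd h3
      · exact step b' hb' c' hc' hP.bc h2
    · exact step a' ha' b' hb' hP.ab h1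
  obtain ⟨p, hp, q, hq, hbp, hbq, hpq⟩ := hcross
  have hpb : M p b = 1 := by rw [hs]; exact hbp
  have hc0 : ∃ c ∈ C, M c c = 1 ∧ M c b = 1 ∧ M c q = 1 := by
    rcases z01 (M p p) with e | e
    · obtain ⟨x, hx, x1, x2, x3⟩ := plus p hp e b hb hpb
      exact ⟨x, hx, x1, x3 b hb hpb, x3 q hq hpq⟩
    · exact ⟨p, hp, e, hpb, hpq⟩
  obtain ⟨c₀, hc₀, hcc₀, hcb₀, hcq₀⟩ := hc0
  obtain ⟨d₀, hd₀, hcd₀, hbd₀, hd₀iso⟩ := iso c₀ hc₀ b hb hbb hcb₀ ⟨q, hq, hcq₀, hbq⟩
  have hdd₀ : M d₀ d₀ = 0 := hd₀iso d₀ hd₀ hcd₀ hbd₀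
  have hdc₀ : M d₀ c₀ = 1 := by rw [hs]; exact hcd₀
  obtain ⟨q₀, hq₀, hqq₀, hqd₀, hqN⟩ := plus d₀ hd₀ hdd₀ c₀ hc₀ hdc₀
  have hbq₀ : M b q₀ = 1 := by
    by_contra h
    have h1 := n1 h
    have h2 : M c₀ q₀ = 1 := by rw [hs]; exact hqN c₀ hc₀ hdc₀
    have h3 := hd₀iso q₀ hq₀ h2 h1
    rw [hs] at h3
    exact o0 hqd₀ h3
  -- (3)
  have h3 : ∃ d ∈ C, M d d = 0 ∧ M b d = 0 ∧ (∃ y ∈ C, M d y = 1) ∧
      ∀ y ∈ C, M d y = 1 → M b y = 1 := by
    by_cases hN : ∀ y ∈ C, M d₀ y = 1 → M b y = 1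
    · exact ⟨d₀, hd₀, hdd₀, hbd₀, ⟨c₀, hc₀, hdc₀⟩, hN⟩
    · push Not at hN
      obtain ⟨y₁, hy₁, hdy₁, hby₁⟩ := hN
      have hby₁' := n1 hby₁
      have md : d₀ ∈ C.filter fun y => M b y = 0 := Finset.mem_filter.2 ⟨hd₀, hbd₀⟩
      have my : y₁ ∈ C.filter fun y => M b y = 0 := Finset.mem_filter.2 ⟨hy₁, hby₁'⟩
      obtain ⟨K, hdK, hyK, hm, f, hf, hfK⟩ := comp_full hs (prF b hb 0) (p4 b hb hbnb 0) md my hdy₁
      have hfC := Finset.mem_filter.1 (hm.1.1 hf)
      have hfb : M f b = 0 := by rw [hs]; exact hfC.2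
      have hff : M f f = 1 := hfK f hf
      obtain ⟨g, hg, g1, g2, g3, g4⟩ := pr f hfC.1 b hb (by rw [hff, hbb])
        (by rw [hfb, hff]; decide)
      rw [hff] at g1
      have g1' := n1 g1
      rw [g1'] at g2 g3
      have hgb : M b g = 0 := by rw [hs]; exact g3
      have hgG : g ∈ C.filter fun y => M b y = 0 := Finset.mem_filter.2 ⟨hg, hgb⟩
      have hgK : g ∉ K := by
        intro h
        have := hfK g h
        rw [hs] at this
        exact o0 this g2
      refine ⟨g, hg, g1', hgb, ⟨q₀, hq₀, ?_⟩, ?_⟩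
      · have h1 : M d₀ f = 1 := by rw [hs]; exact hfK d₀ hdK
        have h2 : M f q₀ = 1 := by rw [hs]; exact hqN f hfC.1 h1
        rw [g4 q₀ hq₀ (by rw [h2, hbq₀]), h2]
      · intro y hy hgy
        by_contra hby
        have hby' := n1 hby
        have hyG : y ∈ C.filter fun y => M b y = 0 := Finset.mem_filter.2 ⟨hy, hby'⟩
        by_cases hyK' : y ∈ K
        · have := hm.1.2.2 y hyK' g hgG hgK
          rw [hs] at this
          exact o0 hgy this
        · have h1 := hm.1.2.2 f hf y hyG hyK'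
          have h2 := g4 y hy (by rw [h1, hby'])
          rw [h1] at h2
          exact o0 hgy h2
  obtain ⟨d, hd, hdd, hbd, ⟨yd, hyd, hdyd⟩, hdN⟩ := h3
  -- (4)
  obtain ⟨c, hc, hcc, hcd, hcN⟩ := plus d hd hdd yd hyd hdyd
  have hdc : M d c = 1 := by rw [hs]; exact hcd
  have hbc : M b c = 1 := hdN c hc hdc
  have hne : ∃ y ∈ C, M b y = 1 ∧ M c y = 0 := by
    by_contra hno
    push Not at hno
    have := hmax c hc (fun z hz hbz => by
      by_contra h
      exact hno z hz hbz (n1 h)) d hd hcd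
    exact o0 this hbd
  obtain ⟨a, ha, hba, hca, haiso⟩ := iso b hb c hc hcc hbc hne
  have haa : M a a = 0 := haiso a ha hba hca
  have hab : M a b = 1 := by rw [hs]; exact hba
  have had : M a d = 0 := by
    by_contra h
    have h1 : M d a = 1 := by rw [hs]; exact n0 h
    exact o0 (hcN a ha h1) hca
  refine ⟨a, ha, b, hb, c, hc, d, hd, ⟨hab, hbc, hcd, by rw [hs]; exact hca, had, hbd⟩,
    haa, hbb, hcc, hdd, ?_⟩
  -- (5)
  rintro g hg ⟨hb1, hb2⟩
  rcases z01 (M g d) with hgd | hgd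
  · rw [hgd] at hb1
    have hga := n0 hb1
    have hag : M a g = 1 := by rw [hs]; exact hga
    rcases z01 (M g b) with hgb | hgb
    · rw [hgb] at hb2
      have hgc := n0 (Ne.symm hb2)
      have mE : ∀ {y}, y ∈ C → M y d = 0 → y ∈ C.filter fun y => M d y = 0 := by
        intro y hy h
        exact Finset.mem_filter.2 ⟨hy, by rw [hs]; exact h⟩
      obtain ⟨K, haK, hbK, hm, f, hf, hfK⟩ := comp_full hs (prF d hd 0)
        (p4 d hd ⟨yd, hyd, hdyd⟩ 0) (mE ha had) (mE hb hbd) hab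
      have hgK : g ∈ K := hm.mem haK (mE hg hgd) hag
      have hfC := Finset.mem_filter.1 (hm.1.1 hf)
      have hfa := hfK a haK
      have hfb := hfK b hbK
      have hfg := hfK g hgK
      have hcf : M c f = 1 := by
        by_contra h
        have := haiso f hfC.1 (by rw [hs]; exact hfb) (n1 h)
        rw [hs] at this
        exact o0 hfa this
      have hv : ∃ v ∈ C, M d v = 1 ∧ M f v = 0 := by
        by_contra hno
        push Not at hno
        have h1 := hmax f hfC.1 (fun z hz hbz => by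
          rcases z01 (M d z) with e | e
          · have hzK : z ∈ K := hm.mem hbK (Finset.mem_filter.2 ⟨hz, e⟩) hbz
            exact hfK z hzK
          · by_contra h
            exact hno z hz e (n1 h)) g hg hfg
        rw [hs] at h1
        exact o0 h1 hgb
      obtain ⟨v, hv, hdv, hfv⟩ := hv
      have hP' : IsP4 M f b v d := by
        refine ⟨hfb, hdN v hv hdv, by rw [hs]; exact hdv, hfv, by rw [hs]; exact hfC.2, hbd⟩
      refine p4 c hc ⟨d, hd, hcd⟩ 1 f ?_ b ?_ v ?_ d ?_ hP'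
      · exact Finset.mem_filter.2 ⟨hfC.1, hcf⟩
      · exact Finset.mem_filter.2 ⟨hb, by rw [hs]; exact hbc⟩
      · exact Finset.mem_filter.2 ⟨hv, hcN v hv hdv⟩
      · exact Finset.mem_filter.2 ⟨hd, hcd⟩
    · rw [hgb] at hb2
      have hgc := n1 (Ne.symm hb2)
      have := haiso g hg (by rw [hs]; exact hgb) (by rw [hs]; exact hgc)
      exact o0 hag this
  · have h1 : M d g = 1 := by rw [hs]; exact hgd
    have h2 := hdN g hg h1
    have h3 := hcN g hg h1
    apply hb2
    rw [hs g b, hs g c, h2, h3]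

lemma co_co (M : X → X → ZMod 2) : co (co M) = M := by
  funext x y
  simp only [co]
  have : ∀ a : ZMod 2, a + 1 + 1 = a := by decide
  exact this _

end

/-- **(P3)** -/
theorem p3 : Pool.Agent.H17.P3.P3 := by
  intro X _ M hs hpairs hsplit a b c d hP
  classical
  have := Fintype.ofFinite X
  -- cylinders
  let Cyl : Finset X → Prop := fun C =>
    ∃ P : Finset (X × ZMod 2), ∀ y, y ∈ C ↔ ∀ p ∈ P, M y p.1 = p.2
  obtain ⟨C, hC, hmin⟩ := Finset.exists_min_image
    ((Finset.univ : Finset (Finset X)).filter fun C => Cyl C ∧ ¬ NoP4In M C) (fun C => C.card)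
    ⟨Finset.univ, by
      rw [Finset.mem_filter]
      refine ⟨Finset.mem_univ _, ⟨∅, by simp⟩, ?_⟩
      intro h
      exact h a (Finset.mem_univ _) b (Finset.mem_univ _) c (Finset.mem_univ _) d
        (Finset.mem_univ _) hP⟩
  rw [Finset.mem_filter] at hC
  obtain ⟨-, ⟨P, hPC⟩, hex⟩ := hC
  have agree : ∀ u ∈ C, ∀ g, (∀ p ∈ P, M g p.1 = M u p.1) → g ∈ C := by
    intro u hu g hg
    rw [hPC] at hu ⊢
    intro p hp
    rw [hg p hp, hu p hp]
  have pr : PairsIn M C := by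
    intro u hu v hv h1 h2
    obtain ⟨g, g1, g2, g3, g4⟩ := hpairs u v h1 h2
    refine ⟨g, ?_, g1, g2, g3, fun x _ => g4 x⟩
    apply agree u hu
    intro p hp
    exact g4 p.1 (by rw [(hPC u).1 hu p hp, (hPC v).1 hv p hp])
  have sub : ∀ w, ∀ ε, (∃ y ∈ C, M w y ≠ ε) → NoP4In M (C.filter fun y => M w y = ε) := by
    intro w ε ⟨y, hy, hwy⟩
    by_contra hno
    have hcyl : Cyl (C.filter fun y => M w y = ε) := by
      refine ⟨insert (w, ε) P, ?_⟩
      intro z
      rw [Finset.mem_filter, hPC]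
      constructor
      · rintro ⟨h1, h2⟩ p hp
        rw [Finset.mem_insert] at hp
        rcases hp with rfl | hp
        · rw [hs]; exact h2
        · exact h1 p hp
      · intro h
        refine ⟨fun p hp => h p (Finset.mem_insert_of_mem hp), ?_⟩
        rw [hs]
        exact h (w, ε) (Finset.mem_insert_self _ _)
    have h1 := hmin _ (Finset.mem_filter.2 ⟨Finset.mem_univ _, hcyl, hno⟩)
    have h2 : (C.filter fun y => M w y = ε).card < C.card := by
      apply Finset.card_lt_card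
      rw [Finset.ssubset_iff_subset_ne]
      refine ⟨Finset.filter_subset _ _, ?_⟩
      intro h
      have := hy
      rw [← h, Finset.mem_filter] at this
      exact hwy this.2
    omega
  by_cases hfull : ∀ w ∈ C, ∃ y ∈ C, M w y = 0
  · obtain ⟨a, ha, b, hb, c, hc, d, hd, h4, l1, l2, l3, l4, hbad⟩ := core hs pr (by
      intro w hw ⟨y, hy, hwy⟩ ε
      apply sub
      rcases z01 ε with rfl | rfl
      · exact ⟨y, hy, by rw [hwy]; decide⟩
      · obtain ⟨z, hz, hwz⟩ := hfull w hw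
        exact ⟨z, hz, by rw [hwz]; decide⟩) hex
    obtain ⟨g, hg, hgy⟩ := hsplit a b c d h4 l1 l2 l3 l4
    refine hbad g (agree a ha g ?_) hg
    intro p hp
    apply hgy p.1
    · rw [(hPC a).1 ha p hp, (hPC b).1 hb p hp]
    · rw [(hPC a).1 ha p hp, (hPC c).1 hc p hp]
    · rw [(hPC a).1 ha p hp, (hPC d).1 hd p hp]
  · push Not at hfull
    obtain ⟨w₁, hw₁, hw₁f⟩ := hfull
    have hs' : ∀ x y, co M x y = co M y x := fun x y => by simp only [co, hs x y]
    have e1 : ∀ {x : ZMod 2}, x + 1 = 1 → x = 0 := by decide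
    have e2 : ∀ {x : ZMod 2}, x + 1 = 0 → x = 1 := by decide
    obtain ⟨a, ha, b, hb, c, hc, d, hd, h4, l1, l2, l3, l4, hbad⟩ := core (M := co M) hs' pr.co (by
      intro w hw ⟨y, hy, hwy⟩ ε
      have hfil : (C.filter fun y => co M w y = ε) = C.filter fun y => M w y = ε + 1 := by
        apply Finset.filter_congr
        intro z _
        simp only [co]
        generalize M w z = s
        revert s ε; decide
      rw [hfil]
      apply NoP4In.co hs
      apply sub
      rcases z01 ε with rfl | rfl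
      · refine ⟨y, hy, ?_⟩
        rw [e1 hwy]; decide
      · refine ⟨w₁, hw₁, ?_⟩
        have := hw₁f w hw
        rw [hs, n0 this]; decide) (by
      intro h
      apply hex
      have := h.co hs'
      rw [co_co] at this
      exact this)
    obtain ⟨g, hg, hgy⟩ := hsplit b d a c (isP4_co hs h4) (e1 l2) (e2 l4) (e2 l1) (e1 l3)
    refine hbad g (agree b hb g ?_) ?_
    · intro p hp
      apply hgy p.1
      · rw [(hPC b).1 hb p hp, (hPC d).1 hd p hp]
      · rw [(hPC b).1 hb p hp, (hPC a).1 ha p hp]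
      · rw [(hPC b).1 hb p hp, (hPC c).1 hc p hp]
    · obtain ⟨h1, h2⟩ := hg
      refine ⟨?_, ?_⟩
      · intro h
        simp only [co, add1_inj] at h
        exact h2 h.symm
      · intro h
        simp only [co, add1_inj] at h
        exact h1 h

end Pool.Agent.H58.P3
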